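import Pool.Agent.H459.TW2.Dih

/-!
# All layers of a tower of 2-extensions at once (helper459)

Let `F` be a number field (for instance `ℚ`) and `M i` a directed family of Galois extensions of 2-power degree
of `F` such that the decomposition groups at the primes over `2` are cyclic, only finitely many primes of `F`
ramify in the `M i` (`Tower`), and one of the following conditions is satisfied.

* (A) One of the `M i` contains all the others (so for instance there is only one `M i`).
* (B) `ManySmallDegrees`: for infinitely many prime numbers `q ≡ 1 mod 8` all primes of all `M i` over `q` have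
  residue degree 1 or 2 over `F`.
* (C) `DihedralType`: `M i = F L i`, where `L i` is a Galois extension of `ℚ` that contains `√d`, `d` squarefree,
  `d ≠ ± 1, ± 2`, all automorphisms of `L i` which move `√d` are involutions, and only finitely many prime numbers
  ramify in the `L i`.

Then a positive proportion of ALL elliptic curves over `F`, ordered by height, has the following property:
over EVERY `M i` the 2-Selmer group is zero, there is no 2-part in the Tate-Shafarevich group and the group of
points is finite of odd order.

Examples for (C) (not part of the Lean theorem): let `K = ℚ(√d)` be an imaginary quadratic field,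
`K ≠ ℚ(i), ℚ(√-2)`, and let `K_i` be the layers of its anticyclotomic `ℤ_2`-extension; the extensions `K_i / ℚ`
are dihedral. If `2` splits in `K`, take `F = ℚ`, `M i = K_i`: the curves are then all curves over `ℚ`. If `F` is
any number field that contains `K`, take `M i = F K_i`.

The twists used in the proof (`Pool.Agent.H459.TW2.twL`) and the local conditions over `2` do not depend on the
member of the family. The averages of the Selmer groups over `F` are the theorem of the library (project PF of
helper783 and others) in the form of `Pool.Agent.H459.UT`. The lemma on primes `q` with `(d / q) = -1` is due to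
helper241, the local lemmas at the primes of residue degree two to helper53, helper114, helper337, helper803 and
helper914.
-/

set_option autoImplicit false

open NumberField IsDedekindDomain MulAction
open scoped Classical Pointwise

namespace Pool.Agent.Results.MP_78d38b_nt.AnticyclotomicTowers

open Pool.Agent.N783.PF (Crv)
open Pool.Agent.H459.UF (GoodM Unr)

section defs

variable (F : Type) [Field F] [NumberField F]

/-- The decomposition groups of the Galois extension `M / F` at the primes over `2` are cyclic. -/
def CyclicOverTwo (M : Type) [Field M] [NumberField M] [Algebra F M] : Prop :=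
  ∀ w : HeightOneSpectrum (𝓞 M), (2 : 𝓞 M) ∈ w.asIdeal →
    IsCyclic (stabilizer (M ≃ₐ[F] M) w.asIdeal)

/-- The residue degree of the prime `w` of `M` over `F` is one or two: `x ^ (N ^ 2) = x` in the residue field
of `w`, where `N` is the number of elements of the residue field of the prime of `F` below `w`. -/
def DegreeOneOrTwo (M : Type) [Field M] [NumberField M] [Algebra F M]
    (w : HeightOneSpectrum (𝓞 M)) : Prop :=
  ∀ x : 𝓞 M, x ^ (Nat.card (𝓞 F ⧸ w.asIdeal.comap (algebraMap (𝓞 F) (𝓞 M))) ^ 2) - x ∈ w.asIdeal

/-- The prime number `q` is in the square of a prime ideal of `L`. -/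
def Ramifies (L : Type) [Field L] [NumberField L] (q : ℕ) : Prop :=
  ∃ P : HeightOneSpectrum (𝓞 L), (q : 𝓞 L) ∈ P.asIdeal ^ 2

/-- `M = F L` for the Galois extension `L` of `ℚ` that contains a square root `s` of `d` and whose
automorphisms which move `s` are involutions. -/
def Dihedral (M : Type) [Field M] [NumberField M] [Algebra F M] (d : ℤ)
    (L : IntermediateField ℚ M) : Prop :=
  IsGalois ℚ L ∧ IntermediateField.adjoin F (L : Set M) = ⊤ ∧
    ∃ s : L, s ^ 2 = (d : L) ∧ ∀ σ : L ≃ₐ[ℚ] L, σ s ≠ s → ∀ x, σ (σ x) = x

variable {ι : Type} (M : ι → Type) [∀ i, Field (M i)] [∀ i, NumberField (M i)]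
  [∀ i, Algebra F (M i)]

/-- Any two of the fields are contained in a third one. -/
def Directed : Prop := ∀ i j, ∃ k, Nonempty (M i →ₐ[F] M k) ∧ Nonempty (M j →ₐ[F] M k)

/-- A directed family of Galois extensions of `F` of 2-power degrees, cyclic over `2`, in which only
finitely many primes of `F` ramify. -/
structure Tower : Prop where
  galois : ∀ i, IsGalois F (M i)
  degree : ∀ i, ∃ n : ℕ, Module.finrank F (M i) = 2 ^ n
  directed : Directed F M
  cyclic : ∀ i, CyclicOverTwo F (M i)
  ramified : {v : HeightOneSpectrum (𝓞 F) | ∃ i, ¬ Unr F (M i) v}.Finite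

/-- One of the fields contains all the others. -/
def HasLargest : Prop := ∃ i, ∀ j, Nonempty (M j →ₐ[F] M i)

/-- There are infinitely many prime numbers `q ≡ 1 mod 8` such that all primes of all `M i` over `q` have
residue degree one or two over `F`. -/
def ManySmallDegrees : Prop :=
  {q : ℕ | q.Prime ∧ q % 8 = 1 ∧ ∀ i, ∀ w : HeightOneSpectrum (𝓞 (M i)), (q : 𝓞 (M i)) ∈ w.asIdeal →
    DegreeOneOrTwo F (M i) w}.Infinite

/-- `M i = F L i` for Galois extensions `L i` of `ℚ` containing a square root of `d`, `d` squarefree, not
`± 1`, `± 2`, in which only finitely many prime numbers ramify and whose automorphisms which move this square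
root are involutions. -/
def DihedralType : Prop :=
  ∃ (d : ℤ) (L : ∀ i, IntermediateField ℚ (M i)),
    Squarefree d ∧ d ≠ 1 ∧ d ≠ -1 ∧ d ≠ 2 ∧ d ≠ -2 ∧
    {q : ℕ | q.Prime ∧ ∃ i, Ramifies (L i) q}.Finite ∧ ∀ i, Dihedral F (M i) d (L i)

end defs

theorem result (F : Type) [Field F] [NumberField F] {ι : Type} (M : ι → Type) [∀ i, Field (M i)]
    [∀ i, NumberField (M i)] [∀ i, Algebra F (M i)] (h : Tower F M)
    (hspl : HasLargest F M ∨ ManySmallDegrees F M ∨ DihedralType F M) :
    ∃ c : ℝ, 0 < c ∧ ∃ Y₀ : ℝ, ∀ Y : ℝ, {p : 𝓞 F × 𝓞 F | Crv Y p}.Finite ∧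
      (Y₀ ≤ Y → 0 < {p : 𝓞 F × 𝓞 F | Crv Y p}.ncard ∧
        c * ({p : 𝓞 F × 𝓞 F | Crv Y p}.ncard : ℝ) ≤
          ({p : 𝓞 F × 𝓞 F | Crv Y p ∧ ∀ i, GoodM F (M i) p}.ncard : ℝ)) := by
  have := h.galois
  refine Pool.Agent.H459.TW2.finL F M h.degree h.directed h.cyclic h.ramified
    (Pool.Agent.H459.TW2.inf_short F M h.ramified ?_)
  rcases hspl with h' | h' | ⟨d, L, h1, h2, h3, h4, h5, h7, h8⟩
  · exact Pool.Agent.H459.TW2.short_top F M h'
  · exact h'
  · exact Pool.Agent.H459.TW2.short_dih F M d h1 h2 h3 h4 h5 L h7 h8

end Pool.Agent.Results.MP_78d38b_nt.AnticyclotomicTowers
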