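import Mathlib
import Pool.Graph.R_seed8.W307.RT.Tors
import Pool.Graph.R_pool_sql_team_seeded_f72693b1.W262.SH.DefB
import Pool.Agent.H457.A.S2b

/-!
# Large Tate-Shafarevich groups and ranks over multiquadratic fields are super-exponentially rare
# among the curves with full rational 2-torsion

Let `K = ℚ(√D_1, ..., √D_l)` be a multiquadratic field (`l = 0`, `K = ℚ` is allowed). All elliptic
curves `E` over `ℚ` all of whose 2-torsion is rational, ordered by height: for every `r` the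
proportion of those for which `rank E(K) + s ≥ r` for some `s` such that `Ш(E/K)` contains
`(ℤ/2^(l+1))^s` is at most `C (D_1 ⋯ D_l)² exp (-c r log r)` for all large heights, with constants
`C`, `c > 0` that only depend on `l`.
-/

set_option autoImplicit false

namespace Pool.Agent.Results.MP_78d38b_nt.ShaTailMultiquadratic

open Finset Filter

open Pool.Agent.W262.SH (KD ShaN Has rkN)

/-- the curve `y² = x³ + A x + B` over `ℚ` -/
def E (A B : ℤ) : WeierstrassCurve ℚ := ⟨0, 0, 0, (A : ℚ), (B : ℚ)⟩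

open Classical in
/-- The pairs `(A, B)` of integers such that `4 A³ + 27 B² ≠ 0`, there is no prime `p` with
`p⁴ ∣ A` and `p⁶ ∣ B`, the height `max (4 |A|³) (27 B²)` is at most `H`, and `Z/2 x Z/2` embeds in
the group of the rational points of `y² = x³ + A x + B`. (The bounds `|A|, |B| ≤ H` follow from the
bound of the height. Every elliptic curve over `ℚ` is isomorphic to `E A B` for exactly one pair
with the first two properties.) -/
noncomputable def Fam (H : ℕ) : Finset (ℤ × ℤ) :=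
  ((Icc (-(H : ℤ)) H) ×ˢ (Icc (-(H : ℤ)) H)).filter (fun c : ℤ × ℤ =>
    4 * c.1 ^ 3 + 27 * c.2 ^ 2 ≠ 0 ∧ 4 * |c.1| ^ 3 ≤ H ∧ 27 * c.2 ^ 2 ≤ H ∧
    (∀ p : ℕ, p.Prime → ¬ ((p : ℤ) ^ 4 ∣ c.1 ∧ (p : ℤ) ^ 6 ∣ c.2)) ∧
    ∃ f : ZMod 2 × ZMod 2 →+ (E c.1 c.2).toAffine.Point, Function.Injective f)

open Classical in
/-- the members `E` of `Fam H` such that, for `K = ℚ(√D_1, ..., √D_l)`, there is an `s` for which
`Ш(E/K)` contains `(ℤ/2^(l+1))^s` and `rank E(K) + s ≥ r` -/
noncomputable def Large {l : ℕ} (D : Fin l → ℤ) (r H : ℕ) : Finset (ℤ × ℤ) :=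
  (Fam H).filter (fun c : ℤ × ℤ => ∃ s : ℕ,
    Has (ShaN (E c.1 c.2) (KD D)) (2 ^ (l + 1)) s ∧ r ≤ rkN (E c.1 c.2) (KD D) + s)

lemma Fam_eq (H : ℕ) : Fam H = Pool.Agent.W307.RT.Cv 2 H := by
  classical
  unfold Fam Pool.Agent.W307.RT.Cv
  apply filter_congr
  intro c _
  have h : Pool.Agent.W307.RT.HasT 2 (Pool.Agent.W307.RT.Sh c.1 c.2) ↔
      ∃ f : ZMod 2 × ZMod 2 →+ (E c.1 c.2).toAffine.Point, Function.Injective f :=
    Pool.Agent.W307.RT.tors_iff
  rw [h]

/-- **Theorem.** The number of the elliptic curves over `ℚ` of height at most `H` with full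
rational 2-torsion tends to infinity with `H`. For every `l` there are constants `C, c > 0` such
that for all nonzero integers `D_1, ..., D_l` and every `r`, for all large `H`, the number of those
for which `rank E(K) + s ≥ r` for some `s` such that `(ℤ/2^(l+1))^s` embeds in `Ш(E/K)`, where
`K = ℚ(√D_1, ..., √D_l)`, is at most `C (D_1 ⋯ D_l)² exp (-c r log r)` times the number of all of
them. -/
theorem result : Tendsto (fun H : ℕ => (Fam H).card) atTop atTop ∧
    ∀ l : ℕ, ∃ C c : ℝ, 0 < C ∧ 0 < c ∧ ∀ D : Fin l → ℤ, (∀ i, D i ≠ 0) →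
      ∀ r : ℕ, ∀ᶠ H : ℕ in atTop, ((Large D r H).card : ℝ) ≤
        C * (∏ i, (D i : ℝ) ^ 2) * Real.exp (-(c * r * Real.log r)) * (Fam H).card := by
  refine ⟨?_, fun l => ?_⟩
  · simp only [Fam_eq]
    exact Pool.Agent.W307.RT.tendsto_of_low Pool.Agent.H457.B.low2
  · obtain ⟨C, c, hC, hc, h⟩ := Pool.Agent.H457.A.height_tailK l
    refine ⟨C, c, hC, hc, fun D hD r => ?_⟩
    filter_upwards [h D hD r] with H hH
    rw [mul_assoc c]
    have h1 : Large D r H = Pool.Agent.H457.A.CP (fun e => ∃ s : ℕ,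
        Has (ShaN (Pool.Agent.W307.RT.Sh e.1 e.2) (KD D)) (2 ^ (l + 1)) s ∧
        r ≤ rkN (Pool.Agent.W307.RT.Sh e.1 e.2) (KD D) + s) H := by
      unfold Large Pool.Agent.H457.A.CP
      rw [Fam_eq]
      rfl
    rw [h1, Fam_eq]
    exact hH

end Pool.Agent.Results.MP_78d38b_nt.ShaTailMultiquadratic
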