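import Pool.Agent.H575.ES.Avg
import Pool.Agent.H183.ES.Low

/-!
# The moments of `2^rank * #Ш[2^n]` over ALL quadratic twists, over an arbitrary number field

Let `F` be any number field and `E_i : y² = x³ + a_i x + b_i`, `i` in a finite set, elliptic curves over `F` which have
no `F`-rational point of order two (`x³ + a_i x + b_i` has no zero in `F`).  For `D ∈ F^*` let
`E_{i,D} : y² = x³ + a_i D² x + b_i D³` (`tw`) be the quadratic twist.  The twists are ordered by the norm `cond D` of the
product of the primes `v` of `F` at which the valuation of `D` is odd; up to the primes above two this is the norm of the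
conductor of the quadratic character of `F(√D)/F`.

**Theorem.**  For all `k` and `n` there is a constant `C` such that for all `X ≥ 1` the set of the classes
`D ∈ F^*/F^*²` with `cond D ≤ X` is finite and not empty, all groups `Sel_2(E_{i,D}/F)` and `Ш(E_{i,D}/F)[2^n]` are finite,
and the averages over these classes `D` of

* `∏_i #Sel_2(E_{i,D}/F) ^ k` and
* `∏_i (2 ^ rank E_{i,D}(F) * #Ш(E_{i,D}/F)[2^n]) ^ k`

are at most `C`.

So all moments of the order of `Ш(E_D/F)[2^n]`, for each fixed `n`, are bounded, jointly with those of `2^rank`, and
simultaneously for several curves; the proportion of the twists with `2^rank * #Ш[2^n] ≥ H` is `O(H^(-k))` for every `k`,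
uniformly in `X`.

Definitions (`Pool.Agent.Q161.ESF.Def`, `Pow`).  `Sha W`: the group of the locally constant cocycles
`Gal(F̄/F) → W(F̄)` whose restrictions to the absolute Galois groups of all completions of `F` (at the maximal ideals of the
ring of integers and at the archimedean places) are coboundaries, modulo the coboundaries.  `Sel2 W`: the same for the cocycles
with values in `W[2]` (coboundaries in `W` at all places), modulo the coboundaries of the points of `W[2]`.
`T2 A n = {x ∈ A | 2^n x = 0}`.  `AllTw F X 𝒟`: the finite set `𝒟 ⊂ F^*` contains exactly one representative of every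
class `D ∈ F^*/F^*²` with `cond D ≤ X`, and nothing else.

What was known: for `F = ℚ` and full rational two-torsion (other shape of the problem) Heath-Brown, Swinnerton-Dyer, Kane;
for `Gal(F(E[2])/F) = S_3` Klagsbrun, Mazur and Rubin found the distribution of the rank of the 2-Selmer group in a different
order of the twists (a Markov model, not by the norm of the conductor); Smith (2022-25) the distribution of the 2-power Selmer
groups for one hundred percent of the twists under certain assumptions.  Here the moments over ALL twists are bounded, which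
needs an upper bound sieve in which also the sparse families of twists are controlled.

Proof.  The sieve and the count (projects ESM, ESN, ESF of run 3997aac3 of the library: a sieve in the `2^(2r)` variables of
Heath-Brown type attached to the Galois module `∏ E_i[2]`, with variables of very different size and an estimate of
exceptional values by high moments instead of Siegel zeros) are assembled in `Pool/Agent/H575/ES/AllN.lean`.  The descent,
which was missing: Kummer generators in the cubic fields `F(θ_i)` of the Selmer elements and their local images at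
all primes of odd residue characteristic (`Kum*.lean`, `H685/ES/Lcg.lean`), finitely many integral representatives
(`H428/ES/Rep.lean`), Galois closures (`H539/ES/KfxDa3.lean`), the exact sequence
`0 → E(F)/2 → Sel_2 → Ш[2] → 0` (`H97/ES/Exa.lean`), the number of the twists (`H183/ES/Low.lean`).
-/

set_option autoImplicit false

open scoped Classical

namespace Pool.Agent.Results.MP_78d38b_nt.TwistShaMoments

open NumberField IsDedekindDomain
open Pool.Agent.Q161.ESF (Sel2 Sha T2)

/-- the quadratic twist by `D` of `y² = x³ + a x + b` -/
def tw {F : Type} [Field F] (a b D : F) : WeierstrassCurve F := ⟨0, 0, 0, a * D ^ 2, b * D ^ 3⟩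

/-- the valuation of `D` at the prime `v` is odd -/
def OddAt {F : Type} [Field F] [NumberField F] (v : HeightOneSpectrum (𝓞 F)) (D : F) : Prop :=
  ∃ k : ℤ, v.valuation F D = WithZero.exp (1 + 2 * k)

/-- the norm of the product of the primes at which the valuation of `D` is odd -/
noncomputable def cond {F : Type} [Field F] [NumberField F] (D : F) : ℕ :=
  ∏ᶠ (v : HeightOneSpectrum (𝓞 F)) (_ : OddAt v D), Ideal.absNorm v.asIdeal

/-- `𝒟` contains exactly one representative of every class `D ∈ F^*/F^*²` with `cond D ≤ X`, and nothing else: the
quadratic twists with conductor of norm at most `X` -/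
def AllTw (F : Type) [Field F] [NumberField F] (X : ℝ) (𝒟 : Finset F) : Prop :=
  (∀ D ∈ 𝒟, D ≠ 0 ∧ (cond D : ℝ) ≤ X) ∧
    ∀ D : F, D ≠ 0 → (cond D : ℝ) ≤ X → ∃! D' : F, D' ∈ 𝒟 ∧ IsSquare (D * D')

/-- the rank of the group of the `F`-rational points -/
noncomputable def rk {F : Type} [Field F] (W : WeierstrassCurve F) : ℕ := Module.finrank ℤ W.toAffine.Point

/-- the order of the 2-Selmer group (zero if it is infinite) -/
noncomputable def sel {F : Type} [Field F] [NumberField F] (W : WeierstrassCurve F) : ℕ := Nat.card (Sel2 W)

/-- the order of `Ш(W/F)[2^n]` (zero if it is infinite) -/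
noncomputable def sha {F : Type} [Field F] [NumberField F] (W : WeierstrassCurve F) (n : ℕ) : ℕ :=
  Nat.card (T2 (Sha W) n)

/-- `Sel_2(W/F)` and `Ш(W/F)[2^n]` are finite -/
def Fin2 {F : Type} [Field F] [NumberField F] (W : WeierstrassCurve F) (n : ℕ) : Prop :=
  Finite (Sel2 W) ∧ Finite (T2 (Sha W) n)

theorem result : ∀ (F ι : Type) [Field F] [NumberField F] [Fintype ι] (a b : ι → F),
    (∀ i, ∀ x : F, x ^ 3 + a i * x + b i ≠ 0) → ∀ k n : ℕ,
    ∃ C : ℝ, 0 < C ∧ ∀ X : ℝ, 1 ≤ X →
      (∃ 𝒟 : Finset F, AllTw F X 𝒟) ∧
      ∀ 𝒟 : Finset F, AllTw F X 𝒟 →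
        𝒟.Nonempty ∧
        (∀ D ∈ 𝒟, ∀ i, Fin2 (tw (a i) (b i) D) n) ∧
        (∑ D ∈ 𝒟, ∏ i, (sel (tw (a i) (b i) D) : ℝ) ^ k) / 𝒟.card ≤ C ∧
        (∑ D ∈ 𝒟, ∏ i, ((2 : ℝ) ^ rk (tw (a i) (b i) D) * (sha (tw (a i) (b i) D) n : ℝ)) ^ k) / 𝒟.card ≤ C :=
  fun F ι _ _ _ a b h k n => Pool.Agent.H575.ES.averages Pool.Agent.H183.ES.low F ι a b h k n

end Pool.Agent.Results.MP_78d38b_nt.TwistShaMoments
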