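import Pool.Agent.H459.UF.FinW

/-!
# Uniform triviality of the Selmer group over Galois 2-extensions (helper459)

For every number field `F`, every finite extension `F'` of `F` and every `k > 0` there is a finite set
`Z` of primes of `F`, completely split in `F'` and prime to `2 k`, such that a positive proportion of
all elliptic curves `y² = x³ + a x + b` over `F`, ordered by height, has the property `UV Z k`: the
cubic `x³ + a x + b` has no zero modulo the primes dividing `k`, `4 a³ + 27 b²` is positive at every
real place, and over EVERY Galois extension `M` of `F` of 2-power degree with `AdmV F M Z (a, b)`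
(the primes of `Z` split completely in `M`, and `M / F` is unramified at the primes over `2` and at
the primes modulo which the cubic has a zero) the 2-Selmer group is zero, there is no 2-part in
the Tate-Shafarevich group and the group of points is finite of odd order.
-/

set_option autoImplicit false

open Polynomial NumberField IsDedekindDomain
open scoped Classical

namespace Pool.Agent.Results.MP_78d38b_nt.UniformTwoExtensions

open Pool.Agent.N783.PF (Crv)
open Pool.Agent.H459.UF (Unr Deg1 UV)

theorem result (F : Type) [Field F] [NumberField F] (F' : Type) [Field F'] [NumberField F']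
    [Algebra F F'] (k : ℕ) (hk : 0 < k) :
    ∃ (Z : Set (HeightOneSpectrum (𝓞 F))), Z.Finite ∧ (∀ v ∈ Z, Unr F F' v ∧ Deg1 F F' v) ∧
    (∀ v ∈ Z, (2 : 𝓞 F) ∉ v.asIdeal ∧ (k : 𝓞 F) ∉ v.asIdeal) ∧
    ∃ c : ℝ, 0 < c ∧ ∃ Y₀ : ℝ, ∀ Y : ℝ, {p : 𝓞 F × 𝓞 F | Crv Y p}.Finite ∧
      (Y₀ ≤ Y → 0 < {p : 𝓞 F × 𝓞 F | Crv Y p}.ncard ∧
        c * ({p : 𝓞 F × 𝓞 F | Crv Y p}.ncard : ℝ) ≤
          ({p : 𝓞 F × 𝓞 F | Crv Y p ∧ UV Z k p}.ncard : ℝ)) :=
  Pool.Agent.H459.UF.finV F F' k hk

end Pool.Agent.Results.MP_78d38b_nt.UniformTwoExtensions
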